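import Pool.Agent.H60.FB.Defs

/-!
Smoothness and conjugation of the homogenisation `hp` and of its gradient `gr`.
-/

open MvPolynomial Pool.Agent.H77.FB Pool.Agent.H60.FB
open scoped ContDiff

namespace Pool.Agent.H10.FB

variable {n : ℕ}

/-- `hp` is jointly smooth (complex). -/
theorem contDiff_hp (P : MvPolynomial (Fin n) ℂ) (m : ℕ) :
    ContDiff ℂ ∞ (fun v : ℂ × (Fin n → ℂ) => hp P m v.1 v.2) := by
  unfold hp
  apply ContDiff.sum
  intro s _
  apply ContDiff.mul
  · apply ContDiff.mul contDiff_const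
    exact contDiff_fst.pow _
  · apply contDiff_prod
    intro i _
    exact ((contDiff_apply ℂ ℂ i).comp contDiff_snd).pow _

/-- `gr` is jointly smooth (complex). -/
theorem contDiff_gr (P : MvPolynomial (Fin n) ℂ) (m : ℕ) (j : Fin n) :
    ContDiff ℂ ∞ (fun v : ℂ × (Fin n → ℂ) => gr P m v.1 v.2 j) := by
  unfold gr
  have h : ContDiff ℂ ∞ (Function.uncurry fun (v : ℂ × (Fin n → ℂ)) (u : Fin n → ℂ) =>
      hp P m v.1 u) :=
    (contDiff_hp P m).comp ((contDiff_fst.comp contDiff_fst).prodMk contDiff_snd)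
  have h2 := ContDiff.fderiv (n := ∞) h (g := fun v : ℂ × (Fin n → ℂ) => v.2) contDiff_snd
    (by simp)
  exact h2.clm_apply contDiff_const

theorem hasFDerivAt_pow' (k : ℕ) (i : Fin n) (u : Fin n → ℂ) :
    HasFDerivAt (fun u : Fin n → ℂ => u i ^ k)
      (((k : ℂ) * u i ^ (k - 1)) • (ContinuousLinearMap.proj (R := ℂ) (φ := fun _ => ℂ) i)) u := by
  have h : HasFDerivAt (fun u : Fin n → ℂ => u i)
      (ContinuousLinearMap.proj (R := ℂ) (φ := fun _ => ℂ) i) u :=
    (ContinuousLinearMap.proj (R := ℂ) (φ := fun _ => ℂ) i).hasFDerivAt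
  exact (hasDerivAt_pow k (u i)).comp_hasFDerivAt u h

theorem hasFDerivAt_mon (s : Fin n →₀ ℕ) (u : Fin n → ℂ) :
    HasFDerivAt (fun u : Fin n → ℂ => ∏ i, u i ^ s i)
      (∑ i ∈ (Finset.univ : Finset (Fin n)),
        (∏ j ∈ Finset.univ.erase i, u j ^ s j) •
        (((s i : ℂ) * u i ^ (s i - 1)) •
          (ContinuousLinearMap.proj (R := ℂ) (φ := fun _ => ℂ) i))) u := by
  classical
  exact HasFDerivAt.finsetProd (g := fun i (u : Fin n → ℂ) => u i ^ s i)
    (fun i _ => hasFDerivAt_pow' (s i) i u)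

/-- An explicit formula for the derivative. -/
theorem hasFDerivAt_hp' (P : MvPolynomial (Fin n) ℂ) (m : ℕ) (x : ℂ) (u : Fin n → ℂ) :
    HasFDerivAt (fun u => hp P m x u)
      (∑ s ∈ P.support, (P.coeff s * x ^ (m - s.degree)) •
        ∑ i ∈ (Finset.univ : Finset (Fin n)),
        (∏ j ∈ Finset.univ.erase i, u j ^ s j) •
        (((s i : ℂ) * u i ^ (s i - 1)) •
          (ContinuousLinearMap.proj (R := ℂ) (φ := fun _ => ℂ) i))) u := by
  unfold hp
  apply HasFDerivAt.fun_sum
  intro s _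
  exact HasFDerivAt.const_mul (hasFDerivAt_mon s u) _

/-- The derivative of `hp` in `u`. -/
theorem hasFDerivAt_hp (P : MvPolynomial (Fin n) ℂ) (m : ℕ) (x : ℂ) (u : Fin n → ℂ) :
    HasFDerivAt (fun u => hp P m x u) (fderiv ℂ (fun u => hp P m x u) u) u :=
  (hasFDerivAt_hp' P m x u).differentiableAt.hasFDerivAt

/-- An explicit formula for the gradient. -/
theorem gr_eq (P : MvPolynomial (Fin n) ℂ) (m : ℕ) (x : ℂ) (u : Fin n → ℂ) (j : Fin n) :
    gr P m x u j = ∑ s ∈ P.support, P.coeff s * x ^ (m - s.degree) *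
      ((∏ i ∈ Finset.univ.erase j, u i ^ s i) * (s j * u j ^ (s j - 1))) := by
  classical
  unfold gr
  rw [(hasFDerivAt_hp' P m x u).fderiv]
  simp only [_root_.sum_apply, _root_.smul_apply,
    ContinuousLinearMap.proj_apply, smul_eq_mul]
  apply Finset.sum_congr rfl
  intro s _
  congr 1
  rw [Finset.sum_eq_single j]
  · simp
  · intro i _ hij
    simp [hij]
  · intro h; exact absurd (Finset.mem_univ j) h

/-- The directional derivative of `hp`, through `gr`. -/
theorem fderiv_hp_apply (P : MvPolynomial (Fin n) ℂ) (m : ℕ) (x : ℂ) (u w : Fin n → ℂ) :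
    fderiv ℂ (fun u => hp P m x u) u w = ∑ j, w j * gr P m x u j := by
  have hw : w = ∑ j, w j • (Pi.single j (1 : ℂ) : Fin n → ℂ) := by
    ext i
    simp [Finset.sum_apply, Pi.single_apply]
  conv_lhs => rw [hw]
  rw [map_sum]
  apply Finset.sum_congr rfl
  intro j _
  rw [map_smul, smul_eq_mul]
  rfl

theorem support_star (P : MvPolynomial (Fin n) ℂ) : (star' P).support = P.support := by
  unfold star'
  exact MvPolynomial.support_map_of_injective _ (starRingEnd ℂ).injective

theorem coeff_star (P : MvPolynomial (Fin n) ℂ) (s : Fin n →₀ ℕ) :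
    (star' P).coeff s = (starRingEnd ℂ) (P.coeff s) := by
  unfold star'
  rw [MvPolynomial.coeff_map]

/-- The conjugate of `hp`. -/
theorem conj_hp (P : MvPolynomial (Fin n) ℂ) (m : ℕ) (x : ℂ) (u : Fin n → ℂ) :
    (starRingEnd ℂ) (hp P m x u)
      = hp (star' P) m ((starRingEnd ℂ) x) (fun j => (starRingEnd ℂ) (u j)) := by
  unfold hp
  rw [support_star, map_sum]
  apply Finset.sum_congr rfl
  intro s _
  rw [coeff_star]
  simp only [map_mul, map_pow, map_prod]

/-- The conjugate of `gr`. -/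
theorem conj_gr (P : MvPolynomial (Fin n) ℂ) (m : ℕ) (x : ℂ) (u : Fin n → ℂ) (j : Fin n) :
    (starRingEnd ℂ) (gr P m x u j)
      = gr (star' P) m ((starRingEnd ℂ) x) (fun j => (starRingEnd ℂ) (u j)) j := by
  rw [gr_eq, gr_eq, support_star, map_sum]
  apply Finset.sum_congr rfl
  intro s _
  rw [coeff_star]
  simp only [map_mul, map_pow, map_prod, map_natCast]

end Pool.Agent.H10.FB
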