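import Mathlib

/-!
A smooth root function near a compact set, from the implicit function theorem.
-/

open Set Filter Topology
open scoped ContDiff

namespace Pool.Agent.H10.FB

variable {X : Type*} [NormedAddCommGroup X] [NormedSpace ℝ X] [CompleteSpace X]
  {Y : Type*} [NormedAddCommGroup Y] [NormedSpace ℝ Y] [CompleteSpace Y]

/-- A function `h (x, y)` which vanishes on `K × {0}`, `K` compact, and has there an
invertible partial derivative in `y`, has a smooth root function near `K`. -/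
theorem exists_root {h : X × Y → Y} (hh : ContDiff ℝ ∞ h) {K : Set X} (hK : IsCompact K)
    (h0 : ∀ x ∈ K, h (x, 0) = 0)
    (h1 : ∀ x ∈ K, (fderiv ℝ h (x, 0) ∘L .inr ℝ X Y).IsInvertible) :
    ∃ U : Set X, IsOpen U ∧ K ⊆ U ∧ ∃ φ : X → Y, (∀ x ∈ U, ContDiffAt ℝ ∞ φ x) ∧
      (∀ x ∈ U, h (x, φ x) = 0) ∧ ∀ x ∈ K, φ x = 0 := by
  classical
  have hn : (∞ : ℕ∞ω) ≠ 0 := by simp
  have hcd : ∀ u : X × Y, ContDiffAt ℝ ∞ h u := fun u => hh.contDiffAt
  -- the zero set
  let Z : Type _ := {v : X × Y // h v = 0}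
  let s : Set Z := {z | z.1 ∈ K ×ˢ ({0} : Set Y)}
  have hs : IsCompact s := by
    have hcl : IsClosed {v : X × Y | h v = 0} := isClosed_eq hh.continuous continuous_const
    have hc : IsCompact (K ×ˢ ({0} : Set Y)) := hK.prod isCompact_singleton
    rw [Subtype.isCompact_iff]
    have : ((↑) : Z → X × Y) '' s = K ×ˢ ({0} : Set Y) := by
      ext v
      constructor
      · rintro ⟨z, hz, rfl⟩
        exact hz
      · intro hv
        have hv2 : v = (v.1, 0) := Prod.ext rfl hv.2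
        refine ⟨⟨v, ?_⟩, hv, rfl⟩
        rw [hv2]
        exact h0 _ hv.1
    rw [this]
    exact hc
  have hinj : InjOn (fun z : Z => z.1.1) s := by
    intro z hz z' hz' hzz
    apply Subtype.ext
    apply Prod.ext hzz
    rw [hz.2, hz'.2]
  have hloc : ∀ z ∈ s, ∃ u ∈ 𝓝 z, InjOn (fun z : Z => z.1.1) u := by
    intro z hz
    have hz2 : z.1 = (z.1.1, 0) := Prod.ext rfl hz.2
    have hinv : (fderiv ℝ h z.1 ∘L .inr ℝ X Y).IsInvertible := by
      rw [hz2]; exact h1 _ hz.1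
    have he := (hcd z.1).eventually_apply_eq_iff_implicitFunction hn hinv
    have he2 : ∀ᶠ w : Z in 𝓝 z, h w.1 = h z.1 ↔
        (hcd z.1).implicitFunction hn hinv w.1.1 = w.1.2 :=
      (continuous_subtype_val.tendsto z).eventually he
    refine ⟨_, he2, ?_⟩
    intro w hw w' hw' hww
    apply Subtype.ext
    apply Prod.ext hww
    have e1 := hw.1 (by rw [w.2, z.2])
    have e2 := hw'.1 (by rw [w'.2, z.2])
    rw [← e1, ← e2]
    exact congrArg _ hww
  obtain ⟨t, hto, hst, hti⟩ := hinj.exists_isOpen_superset hs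
    (fun z _ => (continuous_fst.comp continuous_subtype_val).continuousAt) hloc
  obtain ⟨V, hVo, hVt⟩ := isOpen_induced_iff.1 hto
  -- the set where the partial derivative is invertible
  let I : Set (X × Y) := {v | (fderiv ℝ h v ∘L .inr ℝ X Y).IsInvertible}
  have hIo : IsOpen I := by
    have hc : Continuous fun v : X × Y => fderiv ℝ h v ∘L .inr ℝ X Y := by
      have := hh.continuous_fderiv (by simp)
      fun_prop
    have hop : IsOpen (Set.range ((↑) : (Y ≃L[ℝ] Y) → Y →L[ℝ] Y)) := ContinuousLinearEquiv.isOpen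
    exact hop.preimage hc
  let V0 : Set (X × Y) := V ∩ I
  have hV0o : IsOpen V0 := hVo.inter hIo
  have huniq : ∀ v ∈ V0, ∀ w ∈ V0, h v = 0 → h w = 0 → v.1 = w.1 → v = w := by
    intro v hv w hw hv0 hw0 hvw
    have e1 : (⟨v, hv0⟩ : Z) ∈ t := by rw [← hVt]; exact hv.1
    have e2 : (⟨w, hw0⟩ : Z) ∈ t := by rw [← hVt]; exact hw.1
    exact congrArg Subtype.val (hti e1 e2 hvw)
  have hKV : ∀ x ∈ K, (x, (0 : Y)) ∈ V0 := by
    intro x hx
    refine ⟨?_, h1 x hx⟩
    have e1 : (⟨(x, 0), h0 x hx⟩ : Z) ∈ t := hst ⟨hx, rfl⟩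
    rw [← hVt] at e1
    exact e1
  let U : Set X := {x | ∃ y, (x, y) ∈ V0 ∧ h (x, y) = 0}
  let φ : X → Y := fun x => if hx : ∃ y, (x, y) ∈ V0 ∧ h (x, y) = 0 then hx.choose else 0
  have hφ : ∀ x ∈ U, (x, φ x) ∈ V0 ∧ h (x, φ x) = 0 := by
    intro x hx
    have hx' : ∃ y, (x, y) ∈ V0 ∧ h (x, y) = 0 := hx
    have e : φ x = hx'.choose := dif_pos hx'
    rw [e]
    exact hx'.choose_spec
  have key : ∀ x ∈ U, ∃ ψ : X → Y, ContDiffAt ℝ ∞ ψ x ∧
      ∀ᶠ x' in 𝓝 x, x' ∈ U ∧ φ x' = ψ x' := by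
    intro x hx
    obtain ⟨hxV, hx0⟩ := hφ x hx
    have hinv : (fderiv ℝ h (x, φ x) ∘L .inr ℝ X Y).IsInvertible := hxV.2
    refine ⟨(hcd (x, φ x)).implicitFunction hn hinv,
      (hcd (x, φ x)).contDiffAt_implicitFunction hn hinv, ?_⟩
    have c1 : ContinuousAt ((hcd (x, φ x)).implicitFunction hn hinv) x :=
      ((hcd (x, φ x)).contDiffAt_implicitFunction hn hinv).continuousAt
    have e0 : (hcd (x, φ x)).implicitFunction hn hinv x = φ x :=
      (hcd (x, φ x)).implicitFunction_apply_self hn hinv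
    have c2 : ContinuousAt (fun x' => (x', (hcd (x, φ x)).implicitFunction hn hinv x')) x :=
      continuousAt_id.prodMk c1
    have hmem : (x, (hcd (x, φ x)).implicitFunction hn hinv x) ∈ V0 := by rw [e0]; exact hxV
    have e1 := c2.eventually (hV0o.mem_nhds hmem)
    have e2 := (hcd (x, φ x)).eventually_apply_implicitFunction hn hinv
    filter_upwards [e1, e2] with x' hx'1 hx'2
    have hz : h (x', (hcd (x, φ x)).implicitFunction hn hinv x') = 0 := by
      rw [hx'2, hx0]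
    have hU' : x' ∈ U := ⟨_, hx'1, hz⟩
    refine ⟨hU', ?_⟩
    obtain ⟨hV', h0'⟩ := hφ x' hU'
    exact congrArg Prod.snd (huniq _ hV' _ hx'1 h0' hz rfl)
  refine ⟨U, ?_, fun x hx => ⟨0, hKV x hx, h0 x hx⟩, φ, ?_, fun x hx => (hφ x hx).2, ?_⟩
  · rw [isOpen_iff_mem_nhds]
    intro x hx
    obtain ⟨ψ, -, h2⟩ := key x hx
    filter_upwards [h2] with x' hx' using hx'.1
  · intro x hx
    obtain ⟨ψ, h2, h3⟩ := key x hx
    refine h2.congr_of_eventuallyEq ?_
    filter_upwards [h3] with x' hx' using hx'.2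
  · intro x hx
    have hxU : x ∈ U := ⟨0, hKV x hx, h0 x hx⟩
    obtain ⟨hV', h0'⟩ := hφ x hxU
    exact congrArg Prod.snd (huniq _ hV' _ (hKV x hx) h0' (h0 x hx) rfl)

end Pool.Agent.H10.FB
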