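import Pool.Agent.H10.FB.Hp
import Pool.Agent.H10.FB.Root

/-!
Module B of theorem (II) for MP_6e521b_an: the matching function `κ`.
-/

open MvPolynomial Pool.Agent.H77.FB Set Filter Topology
open scoped ContDiff
namespace Pool.Agent.H60.FB.ModB
open Pool.Agent.H10.FB
variable {n : ℕ}

/-- The matching equation. -/
noncomputable def hF (P : MvPolynomial (Fin n) ℂ) (m : ℕ) (v : ((Fin n → ℂ) × ℝ) × ℂ) : ℂ :=
  hp (star' P) m ((v.1.2 * (1 - sq v.1.1) : ℝ) : ℂ)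
      (fun j => (starRingEnd ℂ) (v.1.1 j) + v.2 * gr P m v.1.2 v.1.1 j)
    - (starRingEnd ℂ) (hp P m v.1.2 v.1.1)

theorem contDiff_sq : ContDiff ℝ ∞ (sq : (Fin n → ℂ) → ℝ) := by
  unfold sq
  apply ContDiff.sum
  intro j _
  exact (contDiff_norm_sq ℝ (E := ℂ)).comp (contDiff_apply ℝ ℂ j)

theorem contDiff_ofReal : ContDiff ℝ ∞ (fun x : ℝ => (x : ℂ)) := Complex.ofRealCLM.contDiff

theorem contDiff_conj : ContDiff ℝ ∞ (fun z : ℂ => (starRingEnd ℂ) z) :=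
  Complex.conjCLE.contDiff

variable {Z : Type*} [NormedAddCommGroup Z] [NormedSpace ℝ Z]

theorem contDiff_hp_comp (P : MvPolynomial (Fin n) ℂ) (m : ℕ) {a : Z → ℂ} {b : Z → Fin n → ℂ}
    (ha : ContDiff ℝ ∞ a) (hb : ContDiff ℝ ∞ b) :
    ContDiff ℝ ∞ (fun z => hp P m (a z) (b z)) :=
  ContDiff.comp (g := fun v : ℂ × (Fin n → ℂ) => hp P m v.1 v.2) (f := fun z => (a z, b z))
    ((contDiff_hp P m).restrict_scalars ℝ) (ha.prodMk hb)

theorem contDiff_gr_comp (P : MvPolynomial (Fin n) ℂ) (m : ℕ) (j : Fin n)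
    {a : Z → ℂ} {b : Z → Fin n → ℂ}
    (ha : ContDiff ℝ ∞ a) (hb : ContDiff ℝ ∞ b) :
    ContDiff ℝ ∞ (fun z => gr P m (a z) (b z) j) :=
  ContDiff.comp (g := fun v : ℂ × (Fin n → ℂ) => gr P m v.1 v.2 j) (f := fun z => (a z, b z))
    ((contDiff_gr P m j).restrict_scalars ℝ) (ha.prodMk hb)

theorem contDiff_hF (P : MvPolynomial (Fin n) ℂ) (m : ℕ) : ContDiff ℝ ∞ (hF P m) := by
  have hz : ContDiff ℝ ∞ (fun v : ((Fin n → ℂ) × ℝ) × ℂ => v.1.1) :=
    contDiff_fst.comp contDiff_fst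
  have he : ContDiff ℝ ∞ (fun v : ((Fin n → ℂ) × ℝ) × ℂ => v.1.2) :=
    contDiff_snd.comp contDiff_fst
  have hy : ContDiff ℝ ∞ (fun v : ((Fin n → ℂ) × ℝ) × ℂ => v.2) := contDiff_snd
  have hec : ContDiff ℝ ∞ (fun v : ((Fin n → ℂ) × ℝ) × ℂ => ((v.1.2 : ℝ) : ℂ)) :=
    contDiff_ofReal.comp he
  have h1 := contDiff_hp_comp P m hec hz
  have h2 := fun j => contDiff_gr_comp P m j hec hz
  have h3 : ContDiff ℝ ∞ (fun v : ((Fin n → ℂ) × ℝ) × ℂ =>
      (fun j => (starRingEnd ℂ) (v.1.1 j) + v.2 * gr P m v.1.2 v.1.1 j : Fin n → ℂ)) := by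
    rw [contDiff_pi]
    intro j
    exact (contDiff_conj.comp ((contDiff_apply ℝ ℂ j).comp hz)).add (hy.mul (h2 j))
  have h4 : ContDiff ℝ ∞ (fun v : ((Fin n → ℂ) × ℝ) × ℂ =>
      ((v.1.2 * (1 - sq v.1.1) : ℝ) : ℂ)) :=
    contDiff_ofReal.comp (he.mul (contDiff_const.sub (contDiff_sq.comp hz)))
  have h5 := contDiff_hp_comp (star' P) m h4 h3
  exact h5.sub (contDiff_conj.comp h1)
theorem hF_zero (P : MvPolynomial (Fin n) ℂ) (m : ℕ) (ζ : Fin n → ℂ) :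
    hF P m ((ζ, 0), 0) = 0 := by
  unfold hF
  rw [conj_hp]
  simp

/-- The complex derivative in `y` at `(ζ, 0, 0)`. -/
theorem hasDerivAt_hF (P : MvPolynomial (Fin n) ℂ) (m : ℕ) (ζ : Fin n → ℂ) :
    HasDerivAt (fun y : ℂ => hF P m ((ζ, 0), y))
      (((∑ j, ‖gr P m 0 ζ j‖ ^ 2 : ℝ)) : ℂ) 0 := by
  have h1 : HasDerivAt (fun y : ℂ => (fun j => (starRingEnd ℂ) (ζ j) + y * gr P m 0 ζ j :
      Fin n → ℂ)) (fun j => gr P m 0 ζ j) 0 := by
    rw [hasDerivAt_pi]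
    intro j
    have := ((hasDerivAt_id (0 : ℂ)).mul_const (gr P m 0 ζ j)).const_add ((starRingEnd ℂ) (ζ j))
    simpa using this
  have h2 : HasFDerivAt (fun u => hp (star' P) m 0 u)
      (fderiv ℂ (fun u => hp (star' P) m 0 u) (fun j => (starRingEnd ℂ) (ζ j)))
      ((fun y : ℂ => (fun j => (starRingEnd ℂ) (ζ j) + y * gr P m 0 ζ j : Fin n → ℂ)) 0) := by
    have e : ((fun y : ℂ => (fun j => (starRingEnd ℂ) (ζ j) + y * gr P m 0 ζ j :
        Fin n → ℂ)) 0) = (fun j => (starRingEnd ℂ) (ζ j)) := by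
      ext j; simp
    rw [e]
    exact hasFDerivAt_hp _ _ _ _
  have h3 := h2.comp_hasDerivAt (0 : ℂ) h1
  have h4 : fderiv ℂ (fun u => hp (star' P) m 0 u) (fun j => (starRingEnd ℂ) (ζ j))
      (fun j => gr P m 0 ζ j) = (((∑ j, ‖gr P m 0 ζ j‖ ^ 2 : ℝ)) : ℂ) := by
    rw [fderiv_hp_apply, Complex.ofReal_sum]
    apply Finset.sum_congr rfl
    intro j _
    have := conj_gr P m 0 ζ j
    rw [map_zero] at this
    rw [← this, Complex.mul_conj, Complex.normSq_eq_norm_sq]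
  rw [h4] at h3
  have h5 : (fun y : ℂ => hF P m ((ζ, 0), y)) = fun y : ℂ =>
      ((fun u => hp (star' P) m 0 u) ∘ (fun y : ℂ => (fun j => (starRingEnd ℂ) (ζ j)
        + y * gr P m 0 ζ j : Fin n → ℂ))) y - (starRingEnd ℂ) (hp P m 0 ζ) := by
    funext y
    simp [hF]
  rw [h5]
  exact h3.sub_const _

theorem hF_invertible (P : MvPolynomial (Fin n) ℂ) (m : ℕ) (hns : Nonsing P m) {ζ : Fin n → ℂ}
    (hζ : ζ ≠ 0) :
    (fderiv ℝ (hF P m) ((ζ, 0), 0) ∘L .inr ℝ ((Fin n → ℂ) × ℝ) ℂ).IsInvertible := by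
  set c : ℂ := (((∑ j, ‖gr P m 0 ζ j‖ ^ 2 : ℝ)) : ℂ) with hc
  have hc0 : c ≠ 0 := by
    obtain ⟨j, hj⟩ := hns ζ hζ
    rw [hc]
    rw [Complex.ofReal_ne_zero]
    have h1 : 0 < ‖gr P m 0 ζ j‖ ^ 2 := by positivity
    have h2 : ‖gr P m 0 ζ j‖ ^ 2 ≤ ∑ j, ‖gr P m 0 ζ j‖ ^ 2 :=
      Finset.single_le_sum (f := fun j => ‖gr P m 0 ζ j‖ ^ 2) (fun i _ => by positivity)
        (Finset.mem_univ j)
    exact (h1.trans_le h2).ne'
  have h1 : HasFDerivAt (fun y : ℂ => hF P m ((ζ, 0), y))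
      (fderiv ℝ (hF P m) ((ζ, 0), 0) ∘L .inr ℝ ((Fin n → ℂ) × ℝ) ℂ) 0 := by
    have e1 : HasFDerivAt (fun y : ℂ => (((ζ, 0), y) : ((Fin n → ℂ) × ℝ) × ℂ))
        (ContinuousLinearMap.inr ℝ ((Fin n → ℂ) × ℝ) ℂ) 0 := hasFDerivAt_prodMk_right _ _
    have e2 : HasFDerivAt (hF P m) (fderiv ℝ (hF P m) ((ζ, 0), 0)) ((ζ, 0), 0) :=
      ((contDiff_hF P m).differentiable (by simp) _).hasFDerivAt
    exact e2.comp (0 : ℂ) e1
  have h2 : HasFDerivAt (𝕜 := ℝ) (fun y : ℂ => hF P m ((ζ, 0), y))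
      ((ContinuousLinearMap.toSpanSingleton ℂ c).restrictScalars ℝ) 0 :=
    (hasDerivAt_hF P m ζ).hasFDerivAt.restrictScalars ℝ
  rw [h1.unique h2]
  refine ⟨((ContinuousLinearEquiv.smulLeft (Units.mk0 c hc0) : ℂ ≃L[ℂ] ℂ)).restrictScalars ℝ, ?_⟩
  ext y
  simp [mul_comm]


/-- The cut-off in `a = sq ζ`. -/
noncomputable def chi (η a : ℝ) : ℝ :=
  Real.smoothTransition ((a - η / 2) / (η / 2)) * Real.smoothTransition (3 - a)

theorem contDiff_chi (η : ℝ) : ContDiff ℝ ∞ (chi η) := by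
  unfold chi
  apply ContDiff.mul
  · exact Real.smoothTransition.contDiff.comp
      ((contDiff_id.sub contDiff_const).div_const _)
  · exact Real.smoothTransition.contDiff.comp (contDiff_const.sub contDiff_id)

theorem chi_nonneg (η a : ℝ) : 0 ≤ chi η a :=
  mul_nonneg (Real.smoothTransition.nonneg _) (Real.smoothTransition.nonneg _)

theorem chi_le_one (η a : ℝ) : chi η a ≤ 1 :=
  mul_le_one₀ (Real.smoothTransition.le_one _) (Real.smoothTransition.nonneg _)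
    (Real.smoothTransition.le_one _)

theorem chi_low {η a : ℝ} (hη : 0 < η) (h : a ≤ η / 2) : chi η a = 0 := by
  unfold chi
  rw [Real.smoothTransition.zero_of_nonpos, zero_mul]
  exact div_nonpos_of_nonpos_of_nonneg (by linarith) (by linarith)

theorem chi_high {η a : ℝ} (h : 3 ≤ a) : chi η a = 0 := by
  unfold chi
  rw [Real.smoothTransition.zero_of_nonpos (x := 3 - a) (by linarith), mul_zero]

theorem chi_one {η a : ℝ} (hη : 0 < η) (h : η ≤ a) (h2 : a ≤ 2) : chi η a = 1 := by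
  unfold chi
  rw [Real.smoothTransition.one_of_one_le, Real.smoothTransition.one_of_one_le, one_mul]
  · linarith
  · rw [le_div_iff₀ (by linarith)]
    linarith

/-- The cut-off in `ε`. -/
noncomputable def rho (e x : ℝ) : ℝ := Real.smoothTransition (2 - x ^ 2 / e ^ 2)

theorem contDiff_rho (e : ℝ) : ContDiff ℝ ∞ (rho e) := by
  unfold rho
  exact Real.smoothTransition.contDiff.comp
    (contDiff_const.sub ((contDiff_id.pow 2).div_const _))

theorem rho_one {e x : ℝ} (he : 0 < e) (h : |x| ≤ e) : rho e x = 1 := by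
  unfold rho
  apply Real.smoothTransition.one_of_one_le
  have h1 : x ^ 2 ≤ e ^ 2 := sq_le_sq' (by linarith [neg_abs_le x]) (le_trans (le_abs_self x) h)
  have h2 : x ^ 2 / e ^ 2 ≤ 1 := by
    rw [div_le_one (by positivity)]
    exact h1
  linarith

theorem rho_zero {e x : ℝ} (he : 0 < e) (h : 2 * e ^ 2 ≤ x ^ 2) : rho e x = 0 := by
  unfold rho
  apply Real.smoothTransition.zero_of_nonpos
  have h2 : 2 ≤ x ^ 2 / e ^ 2 := by
    rw [le_div_iff₀ (by positivity)]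
    exact h
  linarith

theorem norm_le_of_sq {ζ : Fin n → ℂ} {r : ℝ} (hr : 0 ≤ r) (h : sq ζ ≤ r ^ 2) : ‖ζ‖ ≤ r := by
  rw [pi_norm_le_iff_of_nonneg hr]
  intro j
  have h1 : ‖ζ j‖ ^ 2 ≤ sq ζ :=
    Finset.single_le_sum (f := fun j => ‖ζ j‖ ^ 2) (fun i _ => by positivity) (Finset.mem_univ j)
  exact abs_le_of_sq_le_sq' (h1.trans h) hr |>.2

theorem isCompact_shell (a b r : ℝ) (hr : 0 ≤ r) (hb : b ≤ r ^ 2) (e : ℝ) :
    IsCompact {x : (Fin n → ℂ) × ℝ | a ≤ sq x.1 ∧ sq x.1 ≤ b ∧ |x.2| ≤ e} := by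
  have hc : Continuous (sq : (Fin n → ℂ) → ℝ) := contDiff_sq.continuous
  apply (IsCompact.prod (isCompact_closedBall (0 : Fin n → ℂ) r)
    (isCompact_Icc (a := -e) (b := e))).of_isClosed_subset
  · apply IsClosed.inter
    · exact isClosed_le continuous_const (hc.comp continuous_fst)
    apply IsClosed.inter
    · exact isClosed_le (hc.comp continuous_fst) continuous_const
    · exact isClosed_le continuous_snd.abs continuous_const
  · rintro x ⟨-, h1, h2⟩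
    refine ⟨?_, abs_le.1 h2⟩
    rw [mem_closedBall_zero_iff]
    exact norm_le_of_sq hr (h1.trans hb)

theorem sq_zero_vec : sq (0 : Fin n → ℂ) = 0 := by simp [sq]

/-- Module B: the matching function, from the implicit function theorem. -/
theorem exists_kappa (P : MvPolynomial (Fin n) ℂ) {m : ℕ}
    (hns : Nonsing P m) {η : ℝ} (hη : 0 < η) :
    ∃ κ : (Fin n → ℂ) × ℝ → ℂ, ContDiff ℝ ∞ κ ∧ (∀ ζ, κ (ζ, 0) = 0) ∧
      (∀ x, sq x.1 ≤ η / 2 → κ x = 0) ∧ (∀ x, 3 ≤ sq x.1 → κ x = 0) ∧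
      ∃ ε₀ > (0 : ℝ), ∃ C : ℝ, ∀ (ζ : Fin n → ℂ) (ε : ℝ), |ε| ≤ ε₀ → η / 2 ≤ sq ζ → sq ζ ≤ 2 →
        ∃ (y : ℂ) (τ : ℝ), 0 ≤ τ ∧ τ ≤ 1 ∧ (η ≤ sq ζ → τ = 1) ∧ κ (ζ, ε) = τ * y ∧
          ‖y‖ ≤ C * |ε| ∧
          hp (star' P) m ((ε * (1 - sq ζ) : ℝ) : ℂ)
              (fun j => (starRingEnd ℂ) (ζ j) + y * gr P m ε ζ j)
            = (starRingEnd ℂ) (hp P m ε ζ) := by
  classical
  let K : Set ((Fin n → ℂ) × ℝ) := {x | η / 4 ≤ sq x.1 ∧ sq x.1 ≤ 4 ∧ |x.2| ≤ 0}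
  have hK : IsCompact K := isCompact_shell (η / 4) 4 2 (by norm_num) (by norm_num) 0
  have hKz : ∀ x ∈ K, x.2 = 0 := fun x hx => abs_nonpos_iff.1 hx.2.2
  obtain ⟨U, hUo, hKU, φ, hφ1, hφ2, hφ3⟩ := Pool.Agent.H10.FB.exists_root (contDiff_hF P m) hK
    (by
      intro x hx
      have e : x = (x.1, 0) := Prod.ext rfl (hKz x hx)
      rw [e]
      exact hF_zero P m _)
    (by
      intro x hx
      have e : x = (x.1, 0) := Prod.ext rfl (hKz x hx)
      rw [e]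
      apply hF_invertible P m hns
      intro h0
      have h1 := hx.1
      rw [h0, sq_zero_vec] at h1
      linarith)
  obtain ⟨δ, hδ, hδU⟩ := hK.exists_thickening_subset_open hUo hKU
  have hU : ∀ x : (Fin n → ℂ) × ℝ, η / 4 ≤ sq x.1 → sq x.1 ≤ 4 → |x.2| < δ → x ∈ U := by
    intro x h1 h2 h3
    apply hδU
    rw [Metric.mem_thickening_iff]
    refine ⟨(x.1, 0), ⟨h1, h2, by simp⟩, ?_⟩
    rw [Prod.dist_eq]
    simp [h3]
  set e : ℝ := δ / 2 with he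
  have he0 : 0 < e := by positivity
  have hed : ∀ x : ℝ, x ^ 2 < 2 * e ^ 2 → |x| < δ := by
    intro x hx
    apply abs_lt_of_sq_lt_sq _ hδ.le
    rw [he] at hx
    nlinarith
  let κ : (Fin n → ℂ) × ℝ → ℂ := fun x => ((chi η (sq x.1) * rho e x.2 : ℝ) : ℂ) * φ x
  have hcd : ContDiff ℝ ∞ κ := by
    have hsq : ContDiff ℝ ∞ (fun x : (Fin n → ℂ) × ℝ => sq x.1) := contDiff_sq.comp contDiff_fst
    have hcoef : ContDiff ℝ ∞ (fun x : (Fin n → ℂ) × ℝ =>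
        ((chi η (sq x.1) * rho e x.2 : ℝ) : ℂ)) :=
      contDiff_ofReal.comp (((contDiff_chi η).comp hsq).mul ((contDiff_rho e).comp contDiff_snd))
    have hcs : Continuous (fun x : (Fin n → ℂ) × ℝ => sq x.1) := hsq.continuous
    rw [contDiff_iff_contDiffAt]
    intro x
    have zero_case : (∀ᶠ x' in 𝓝 x, κ x' = 0) → ContDiffAt ℝ ∞ κ x := by
      intro h
      exact (contDiffAt_const (c := (0 : ℂ))).congr_of_eventuallyEq h
    by_cases h1 : sq x.1 < η / 2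
    · apply zero_case
      filter_upwards [hcs.continuousAt.eventually (gt_mem_nhds h1)] with x' hx'
      simp only [κ, chi_low hη hx'.le]
      simp
    by_cases h2 : 3 < sq x.1
    · apply zero_case
      filter_upwards [hcs.continuousAt.eventually (lt_mem_nhds h2)] with x' hx'
      simp only [κ, chi_high hx'.le]
      simp
    by_cases h3 : 2 * e ^ 2 < x.2 ^ 2
    · apply zero_case
      have hc2 : Continuous (fun x : (Fin n → ℂ) × ℝ => x.2 ^ 2) := continuous_snd.pow 2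
      filter_upwards [hc2.continuousAt.eventually (lt_mem_nhds h3)] with x' hx'
      simp only [κ, rho_zero he0 hx'.le]
      simp
    · push Not at h1 h2 h3
      have hxU : x ∈ U := by
        apply hU x (by linarith) (by linarith)
        apply abs_lt_of_sq_lt_sq _ hδ.le
        have : 2 * e ^ 2 < δ ^ 2 := by rw [he]; nlinarith
        linarith
      exact hcoef.contDiffAt.mul (hφ1 x hxU)
  have hφ0 : ∀ ζ : Fin n → ℂ, η / 4 ≤ sq ζ → sq ζ ≤ 4 → φ (ζ, 0) = 0 := by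
    intro ζ h1 h2
    exact hφ3 _ ⟨h1, h2, by simp⟩
  -- the bound on the derivative
  let S : Set ((Fin n → ℂ) × ℝ) := {x | η / 2 ≤ sq x.1 ∧ sq x.1 ≤ 2 ∧ |x.2| ≤ e}
  have hS : IsCompact S := isCompact_shell (η / 2) 2 2 (by norm_num) (by norm_num) e
  have hSU : S ⊆ U := by
    rintro x ⟨h1, h2, h3⟩
    exact hU x (by linarith) (by linarith) (by rw [he] at h3; linarith)
  have hfd : ContinuousOn (fderiv ℝ φ) S := by
    intro x hx
    exact ((hφ1 x (hSU hx)).fderiv_right (m := 0) (by simp)).continuousAt.continuousWithinAt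
  obtain ⟨C, hC⟩ := hS.exists_bound_of_continuousOn hfd
  refine ⟨κ, hcd, ?_, ?_, ?_, e, he0, C, ?_⟩
  · intro ζ
    by_cases h1 : sq ζ ≤ η / 2
    · simp only [κ, chi_low hη h1]
      simp
    by_cases h2 : 3 ≤ sq ζ
    · simp only [κ, chi_high h2]
      simp
    · push Not at h1 h2
      simp only [κ, hφ0 ζ (by linarith) (by linarith), mul_zero]
  · intro x hx
    simp only [κ, chi_low hη hx]
    simp
  · intro x hx
    simp only [κ, chi_high hx]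
    simp
  · intro ζ ε hε h1 h2
    have hmem : ∀ t : ℝ, |t| ≤ e → ((ζ, t) : (Fin n → ℂ) × ℝ) ∈ S := fun t ht => ⟨h1, h2, ht⟩
    refine ⟨φ (ζ, ε), chi η (sq ζ), chi_nonneg _ _, chi_le_one _ _,
      fun h => chi_one hη h h2, ?_, ?_, ?_⟩
    · simp only [κ, rho_one he0 hε, mul_one]
    · have hconv : Convex ℝ (({ζ} : Set (Fin n → ℂ)) ×ˢ Set.Icc (-e) e) :=
        (convex_singleton ζ).prod (convex_Icc _ _)
      have hsub : ∀ x ∈ (({ζ} : Set (Fin n → ℂ)) ×ˢ Set.Icc (-e) e), x ∈ S := by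
        rintro ⟨z, t⟩ ⟨hz, ht⟩
        have hz' : z = ζ := hz
        rw [hz']
        exact hmem t (abs_le.2 ht)
      have := hconv.norm_image_sub_le_of_norm_fderiv_le (𝕜 := ℝ) (f := φ) (C := C)
        (fun x hx => (hφ1 x (hSU (hsub x hx))).differentiableAt (by simp))
        (fun x hx => hC x (hsub x hx)) (x := (ζ, 0)) (y := (ζ, ε))
        ⟨rfl, by constructor <;> simp [he0.le]⟩ ⟨rfl, abs_le.1 hε⟩
      rw [hφ0 ζ (by linarith) (by linarith), sub_zero] at this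
      refine this.trans_eq ?_
      congr 1
      rw [Prod.mk_sub_mk, sub_self, sub_zero, Prod.norm_mk, norm_zero, Real.norm_eq_abs]
      exact max_eq_right (abs_nonneg _)
    · have h3 := hφ2 (ζ, ε) (hSU (hmem ε hε))
      unfold hF at h3
      exact sub_eq_zero.1 h3

end Pool.Agent.H60.FB.ModB

namespace Pool.Agent.H60.FB

variable {n : ℕ}

/-- Module B, with the signature of the specification. -/
theorem exists_kappa (P : MvPolynomial (Fin n) ℂ) {m : ℕ} (_hP : P.totalDegree ≤ m)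
    (hns : Nonsing P m) {η : ℝ} (hη : 0 < η) (_hη1 : η ≤ 1) :
    ∃ κ : (Fin n → ℂ) × ℝ → ℂ, ContDiff ℝ ∞ κ ∧ (∀ ζ, κ (ζ, 0) = 0) ∧
      (∀ x, sq x.1 ≤ η / 2 → κ x = 0) ∧ (∀ x, 3 ≤ sq x.1 → κ x = 0) ∧
      ∃ ε₀ > (0 : ℝ), ∃ C : ℝ, ∀ (ζ : Fin n → ℂ) (ε : ℝ), |ε| ≤ ε₀ → η / 2 ≤ sq ζ → sq ζ ≤ 2 →
        ∃ (y : ℂ) (τ : ℝ), 0 ≤ τ ∧ τ ≤ 1 ∧ (η ≤ sq ζ → τ = 1) ∧ κ (ζ, ε) = τ * y ∧
          ‖y‖ ≤ C * |ε| ∧
          hp (star' P) m ((ε * (1 - sq ζ) : ℝ) : ℂ)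
              (fun j => (starRingEnd ℂ) (ζ j) + y * gr P m ε ζ j)
            = (starRingEnd ℂ) (hp P m ε ζ) :=
  ModB.exists_kappa P hns hη

end Pool.Agent.H60.FB
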